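import Pool.Agent.H.MP_cb6225_lc.A

set_option autoImplicit false

namespace Pool.Agent.Results.MP_cb6225_lc.Yes

open Pool.Agent.H.MP_cb6225_lc

theorem result (A : Type) [Finite A] [Nontrivial A] [Primcodable A] :
    ∃ L : Set (List A), ComputablePred (· ∈ L) ∧ REPred (· ∈ L) ∧ ∀ (f : Fm A) (x : ℕ), L ≠ S f x := by
  classical
  obtain ⟨a, b, h⟩ := exists_pair_ne A
  have e : ∀ m, Nat.sqrt ((W a b m).length + 4) - 2 = m := fun m => by
    rw [Wl, show m * (m + 4) + 4 = (m + 2) * (m + 2) by ring, Nat.sqrt_eq]; rfl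
  have pW : Primrec (W a b) := Primrec.list_flatMap Primrec.list_range
    (Primrec.list_map (Primrec.list_range.comp (Primrec.nat_add.comp .fst (.const 4)))
      (Primrec.ite ((Primrec.nat_le.comp .snd (.const 1)).or
        (Primrec.eq.comp .snd (Primrec.nat_add.comp (Primrec.snd.comp .fst) (.const 3)))) (.const b) (.const a)).to₂).to₂
  have c : ComputablePred (· ∈ {w | w = W a b (Nat.sqrt (w.length + 4) - 2)}) :=
    (Primrec.eq.comp .id (pW.comp (Primrec.nat_sub.comp (Primrec.nat_sqrt.comp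
      (Primrec.nat_add.comp Primrec.list_length (.const 4))) (.const 2)))).computablePred
  refine ⟨_, c, c.to_re, fun f x hL => ?_⟩
  obtain ⟨K, _, hK⟩ := col_sat h f
  have := Fintype.ofFinite K
  obtain ⟨g, hg, gx⟩ : W a b (Fintype.card K + 1) ∈ S f x := hL ▸ (congrArg (W a b) (e _)).symm
  obtain ⟨col, hc⟩ := hK g (Fintype.card K + 1)
  obtain ⟨i, j, n, ij⟩ := Fintype.exists_ne_map_eq_of_card_lt (fun i : Fin (Fintype.card K + 1) => col i) (by simp)
  have n' : (i : ℕ) ≠ j := fun e => n (Fin.ext e)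
  have k : _ ∈ S f x := ⟨_, (hc i i.2 j j.2 n' ij).2 hg, rfl⟩
  rw [← hL, Set.mem_setOf_eq, Function.comp, sw_len b0 (bl.trans bl.symm) (bne h i.2 n'), gx, e] at k
  exact sw_fix b0 (bl.trans bl.symm) (bne h i.2 n') _ k (List.infix_of_mem_flatten (List.mem_map_of_mem (List.mem_range.2 i.2)))

end Pool.Agent.Results.MP_cb6225_lc.Yes
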